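import Mathlib

set_option autoImplicit false

namespace Pool.Agent.Lib.RHO5

open Finset

/-- tensors with `k` factors of dimension two -/
abbrev V (k : ℕ) : Type := (Fin k → Bool) → ℝ

/-- sections of a family -/
def sec {k : ℕ} (b : Bool) (X : Finset (Fin (k + 1) → Bool)) : Finset (Fin k → Bool) :=
  univ.filter (fun x => Fin.cons b x ∈ X)

theorem mem_sec {k : ℕ} (b : Bool) (X : Finset (Fin (k + 1) → Bool)) (x : Fin k → Bool) :
    x ∈ sec b X ↔ (Fin.cons b x : Fin (k + 1) → Bool) ∈ X := by
  simp [sec]

theorem card_sec {k : ℕ} (X : Finset (Fin (k + 1) → Bool)) :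
    (sec false X).card + (sec true X).card = X.card := by
  classical
  have h : X = (sec false X).image (fun x => (Fin.cons false x : Fin (k + 1) → Bool)) ∪
      (sec true X).image (fun x => (Fin.cons true x : Fin (k + 1) → Bool)) := by
    ext x
    rw [mem_union, mem_image, mem_image]
    constructor
    · intro hx
      rcases hb : x 0 with _ | _
      · left
        refine ⟨Fin.tail x, ?_, ?_⟩
        · rw [mem_sec, ← hb, Fin.cons_self_tail]
          exact hx
        · rw [← hb, Fin.cons_self_tail]
      · right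
        refine ⟨Fin.tail x, ?_, ?_⟩
        · rw [mem_sec, ← hb, Fin.cons_self_tail]
          exact hx
        · rw [← hb, Fin.cons_self_tail]
    · rintro (⟨y, hy, rfl⟩ | ⟨y, hy, rfl⟩)
      · exact (mem_sec _ _ _).1 hy
      · exact (mem_sec _ _ _).1 hy
  have hd : Disjoint ((sec false X).image (fun x => (Fin.cons false x : Fin (k + 1) → Bool)))
      ((sec true X).image (fun x => (Fin.cons true x : Fin (k + 1) → Bool))) := by
    rw [Finset.disjoint_left]
    intro x hx hx'
    rw [mem_image] at hx hx'
    obtain ⟨y, _, rfl⟩ := hx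
    obtain ⟨z, _, hz⟩ := hx'
    have := congrFun hz 0
    simp at this
  have hinj : ∀ b : Bool, Function.Injective
      (fun x : Fin k → Bool => (Fin.cons b x : Fin (k + 1) → Bool)) := by
    intro b x y hxy
    exact (Fin.cons_injective2 hxy).2
  conv_rhs => rw [h]
  rw [card_union_of_disjoint hd, card_image_of_injective _ (hinj false),
    card_image_of_injective _ (hinj true)]

/-- evaluation of the first coordinate -/
def restr {k : ℕ} (b : Bool) : V (k + 1) →ₗ[ℝ] V k where
  toFun f := fun x => f (Fin.cons b x)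
  map_add' f g := rfl
  map_smul' c f := rfl

/-- the three projections -/
def p {k : ℕ} (L : ZMod 3) : V (k + 1) →ₗ[ℝ] V k :=
  if L = 0 then restr false else if L = 1 then - restr true else restr true - restr false

theorem p_sum {k : ℕ} (f : V (k + 1)) : p 0 f + p 1 f + p 2 f = 0 := by
  have h1 : (1 : ZMod 3) ≠ 0 := by decide
  have h2 : (2 : ZMod 3) ≠ 0 := by decide
  have h3 : (2 : ZMod 3) ≠ 1 := by decide
  simp only [p, if_true, h1, h2, h3, if_false]
  simp only [LinearMap.neg_apply, LinearMap.sub_apply]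
  abel

theorem eq_zero_of_restr {k : ℕ} (f : V (k + 1)) (h0 : restr false f = 0) (h1 : restr true f = 0) :
    f = 0 := by
  funext x
  rcases hb : x 0 with _ | _
  · have := congrFun h0 (Fin.tail x)
    simp only [restr, LinearMap.coe_mk, AddHom.coe_mk] at this
    rw [← hb, Fin.cons_self_tail] at this
    simpa using this
  · have := congrFun h1 (Fin.tail x)
    simp only [restr, LinearMap.coe_mk, AddHom.coe_mk] at this
    rw [← hb, Fin.cons_self_tail] at this
    simpa using this

theorem p01 {k : ℕ} (f : V (k + 1)) (h0 : p 0 f = 0) (h1 : p 1 f = 0) : f = 0 := by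
  have e1 : (1 : ZMod 3) ≠ 0 := by decide
  simp only [p, if_true] at h0
  simp only [p, e1, if_false, if_true, LinearMap.neg_apply, neg_eq_zero] at h1
  exact eq_zero_of_restr f h0 h1

theorem p02 {k : ℕ} (f : V (k + 1)) (h0 : p 0 f = 0) (h2 : p 2 f = 0) : f = 0 := by
  have h := p_sum f
  rw [h0, h2, zero_add, add_zero] at h
  exact p01 f h0 h

theorem p12 {k : ℕ} (f : V (k + 1)) (h1 : p 1 f = 0) (h2 : p 2 f = 0) : f = 0 := by
  have h := p_sum f
  rw [h1, h2, add_zero, add_zero] at h
  exact p01 f h h1

/-- the subspace of tensors of type `L` and family `X` -/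
noncomputable def U : (k : ℕ) → ZMod 3 → Finset (Fin k → Bool) → Submodule ℝ (V k)
  | 0, _, X => if X = ∅ then ⊥ else ⊤
  | k + 1, L, X => (U k L (sec false X)).comap (p L) ⊓
      ⨅ M : ZMod 3, (U k L (sec true X)).comap (p M)

theorem mem_U_succ {k : ℕ} (L : ZMod 3) (X : Finset (Fin (k + 1) → Bool)) (f : V (k + 1)) :
    f ∈ U (k + 1) L X ↔ p L f ∈ U k L (sec false X) ∧ ∀ M, p M f ∈ U k L (sec true X) := by
  simp only [U, Submodule.mem_inf, Submodule.mem_comap, Submodule.mem_iInf]

/-- triple intersections -/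
noncomputable def I3 (k : ℕ) (X Y Z : Finset (Fin k → Bool)) : Submodule ℝ (V k) :=
  U k 0 X ⊓ U k 1 Y ⊓ U k 2 Z

theorem mem_I3 {k : ℕ} (X Y Z : Finset (Fin k → Bool)) (f : V k) :
    f ∈ I3 k X Y Z ↔ f ∈ U k 0 X ∧ f ∈ U k 1 Y ∧ f ∈ U k 2 Z := by
  simp only [I3, Submodule.mem_inf, and_assoc]

/-- a dimension count -/
theorem dim_le {E W : Type} [AddCommGroup E] [Module ℝ E] [Module.Finite ℝ E]
    [AddCommGroup W] [Module ℝ W] [Module.Finite ℝ W] (I : Submodule ℝ E) (J1 J2 : Submodule ℝ W)
    (f g : E →ₗ[ℝ] W) (h1 : ∀ x ∈ I, f x ∈ J1) (h2 : ∀ x ∈ I, f x = 0 → g x ∈ J2)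
    (h3 : ∀ x ∈ I, f x = 0 → g x = 0 → x = 0) :
    Module.finrank ℝ I ≤ Module.finrank ℝ J1 + Module.finrank ℝ J2 := by
  have h := LinearMap.finrank_range_add_finrank_ker (f.domRestrict I)
  have hr : Module.finrank ℝ (LinearMap.range (f.domRestrict I)) ≤ Module.finrank ℝ J1 := by
    apply Submodule.finrank_mono
    rintro _ ⟨x, rfl⟩
    exact h1 x.1 x.2
  have hk : Module.finrank ℝ (LinearMap.ker (f.domRestrict I)) ≤ Module.finrank ℝ J2 := by
    let φ : LinearMap.ker (f.domRestrict I) →ₗ[ℝ] J2 :=
      { toFun := fun x => ⟨g x.1.1, h2 x.1.1 x.1.2 (by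
          have := x.2
          rw [LinearMap.mem_ker] at this
          exact this)⟩
        map_add' := by
          intro x y
          ext
          simp
        map_smul' := by
          intro c x
          ext
          simp }
    refine LinearMap.finrank_le_finrank_of_injective (f := φ) ?_
    rw [← LinearMap.ker_eq_bot, LinearMap.ker_eq_bot']
    intro x hx
    have hx1 : f x.1.1 = 0 := by
      have := x.2
      rw [LinearMap.mem_ker] at this
      exact this
    have hx2 : g x.1.1 = 0 := by
      have := congrArg Subtype.val hx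
      exact this
    have := h3 x.1.1 x.1.2 hx1 hx2
    exact Subtype.ext (Subtype.ext this)
  omega

end Pool.Agent.Lib.RHO5
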