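import Mathlib
import Pool.Agent.Lib.RHO5.A

set_option autoImplicit false

namespace Pool.Agent.Lib.RHO5

open Finset

theorem numeric (q D a1 a2 a3 b1 b2 b3 x0 x1 y0 y1 z0 z1 : ℕ)
    (hx : x0 ≤ x1) (hy : y0 ≤ y1) (hz : z0 ≤ z1)
    (h1 : D ≤ a1 + b1) (h2 : D ≤ a2 + b2) (h3 : D ≤ a3 + b3)
    (ha1 : q * a1 ≤ x0 * y1 * z1) (hb1 : q * b1 ≤ x1 * y0 * z0)
    (ha2 : q * a2 ≤ x1 * y0 * z1) (hb2 : q * b2 ≤ x0 * y1 * z0)
    (ha3 : q * a3 ≤ x1 * y1 * z0) (hb3 : q * b3 ≤ x0 * y0 * z1) :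
    q * 4 * D ≤ (x0 + x1) * (y0 + y1) * (z0 + z1) := by
  have e1 : q * D ≤ x0 * y1 * z1 + x1 * y0 * z0 := by
    calc q * D ≤ q * (a1 + b1) := Nat.mul_le_mul_left _ h1
      _ = q * a1 + q * b1 := by ring
      _ ≤ _ := Nat.add_le_add ha1 hb1
  have e2 : q * D ≤ x1 * y0 * z1 + x0 * y1 * z0 := by
    calc q * D ≤ q * (a2 + b2) := Nat.mul_le_mul_left _ h2
      _ = q * a2 + q * b2 := by ring
      _ ≤ _ := Nat.add_le_add ha2 hb2
  have e3 : q * D ≤ x1 * y1 * z0 + x0 * y0 * z1 := by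
    calc q * D ≤ q * (a3 + b3) := Nat.mul_le_mul_left _ h3
      _ = q * a3 + q * b3 := by ring
      _ ≤ _ := Nat.add_le_add ha3 hb3
  obtain ⟨u, rfl⟩ := Nat.exists_eq_add_of_le hx
  obtain ⟨v, rfl⟩ := Nat.exists_eq_add_of_le hy
  obtain ⟨w, rfl⟩ := Nat.exists_eq_add_of_le hz
  have hT : (x0 + (x0 + u)) * (y0 + (y0 + v)) * (z0 + (z0 + w)) +
      (2 * (x0 * v * w + u * y0 * w + u * v * z0) + 3 * (u * v * w)) =
      4 * (x0 * y0 * z0 + (x0 + u) * (y0 + v) * (z0 + w)) := by ring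
  have hsum : 3 * (q * D) + (x0 * y0 * z0 + (x0 + u) * (y0 + v) * (z0 + w)) ≤
      (x0 + (x0 + u)) * (y0 + (y0 + v)) * (z0 + (z0 + w)) := by
    have : (x0 + (x0 + u)) * (y0 + (y0 + v)) * (z0 + (z0 + w)) =
        (x0 * (y0 + v) * (z0 + w) + (x0 + u) * y0 * z0) +
        ((x0 + u) * y0 * (z0 + w) + x0 * (y0 + v) * z0) +
        ((x0 + u) * (y0 + v) * z0 + x0 * y0 * (z0 + w)) +
        (x0 * y0 * z0 + (x0 + u) * (y0 + v) * (z0 + w)) := by ring
    rw [this]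
    linarith
  have : q * 4 * D = 4 * (q * D) := by ring
  rw [this]
  omega

theorem I3_p0 {k : ℕ} (X Y Z : Finset (Fin (k + 1) → Bool)) (f : V (k + 1))
    (hf : f ∈ I3 (k + 1) X Y Z) : p 0 f ∈ I3 k (sec false X) (sec true Y) (sec true Z) := by
  rw [mem_I3, mem_U_succ, mem_U_succ, mem_U_succ] at hf
  obtain ⟨⟨h1, _⟩, ⟨_, h4⟩, ⟨_, h6⟩⟩ := hf
  rw [mem_I3]
  exact ⟨h1, h4 0, h6 0⟩

theorem I3_p1 {k : ℕ} (X Y Z : Finset (Fin (k + 1) → Bool)) (f : V (k + 1))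
    (hf : f ∈ I3 (k + 1) X Y Z) : p 1 f ∈ I3 k (sec true X) (sec false Y) (sec true Z) := by
  rw [mem_I3, mem_U_succ, mem_U_succ, mem_U_succ] at hf
  obtain ⟨⟨_, h2⟩, ⟨h3, _⟩, ⟨_, h6⟩⟩ := hf
  rw [mem_I3]
  exact ⟨h2 1, h3, h6 1⟩

theorem I3_p2 {k : ℕ} (X Y Z : Finset (Fin (k + 1) → Bool)) (f : V (k + 1))
    (hf : f ∈ I3 (k + 1) X Y Z) : p 2 f ∈ I3 k (sec true X) (sec true Y) (sec false Z) := by
  rw [mem_I3, mem_U_succ, mem_U_succ, mem_U_succ] at hf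
  obtain ⟨⟨_, h2⟩, ⟨_, h4⟩, ⟨h5, _⟩⟩ := hf
  rw [mem_I3]
  exact ⟨h2 2, h4 2, h5⟩

theorem k0 {k : ℕ} (X Y Z : Finset (Fin (k + 1) → Bool)) (f : V (k + 1))
    (hf : f ∈ I3 (k + 1) X Y Z) (h0 : p 0 f = 0) :
    p 1 f ∈ I3 k (sec true X) (sec false Y) (sec false Z) := by
  have h1 := I3_p1 X Y Z f hf
  have h2 := I3_p2 X Y Z f hf
  have hs := p_sum f
  rw [h0, zero_add] at hs
  have e : p 1 f = - p 2 f := eq_neg_of_add_eq_zero_left hs
  rw [mem_I3] at h1 h2 ⊢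
  refine ⟨h1.1, h1.2.1, ?_⟩
  rw [e]
  exact Submodule.neg_mem _ h2.2.2

theorem k1 {k : ℕ} (X Y Z : Finset (Fin (k + 1) → Bool)) (f : V (k + 1))
    (hf : f ∈ I3 (k + 1) X Y Z) (h0 : p 1 f = 0) :
    p 2 f ∈ I3 k (sec false X) (sec true Y) (sec false Z) := by
  have h1 := I3_p0 X Y Z f hf
  have h2 := I3_p2 X Y Z f hf
  have hs := p_sum f
  rw [h0, add_zero] at hs
  have e : p 2 f = - p 0 f := eq_neg_of_add_eq_zero_right hs
  rw [mem_I3] at h1 h2 ⊢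
  refine ⟨?_, h2.2.1, h2.2.2⟩
  rw [e]
  exact Submodule.neg_mem _ h1.1

theorem k2 {k : ℕ} (X Y Z : Finset (Fin (k + 1) → Bool)) (f : V (k + 1))
    (hf : f ∈ I3 (k + 1) X Y Z) (h0 : p 2 f = 0) :
    p 0 f ∈ I3 k (sec false X) (sec false Y) (sec true Z) := by
  have h1 := I3_p0 X Y Z f hf
  have h2 := I3_p1 X Y Z f hf
  have hs := p_sum f
  rw [h0, add_zero] at hs
  have e : p 0 f = - p 1 f := eq_neg_of_add_eq_zero_left hs
  rw [mem_I3] at h1 h2 ⊢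
  refine ⟨h1.1, ?_, h1.2.2⟩
  rw [e]
  exact Submodule.neg_mem _ h2.2.1

theorem sec_upper {k : ℕ} (b : Bool) (X : Finset (Fin (k + 1) → Bool))
    (h : IsUpperSet (X : Set (Fin (k + 1) → Bool))) :
    IsUpperSet (sec b X : Set (Fin k → Bool)) := by
  intro x y hxy hx
  rw [mem_coe, mem_sec] at hx ⊢
  refine h (?_ : (Fin.cons b x : Fin (k + 1) → Bool) ≤ Fin.cons b y) hx
  intro i
  refine Fin.cases ?_ ?_ i
  · simp
  · intro j
    simpa using hxy j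

theorem sec_sub {k : ℕ} (X : Finset (Fin (k + 1) → Bool))
    (h : IsUpperSet (X : Set (Fin (k + 1) → Bool))) : sec false X ⊆ sec true X := by
  intro x hx
  rw [mem_sec] at hx ⊢
  refine h (?_ : (Fin.cons false x : Fin (k + 1) → Bool) ≤ Fin.cons true x) hx
  intro i
  refine Fin.cases ?_ ?_ i
  · simp
  · intro j
    simp

/-- the three-family inequality of Harris-Kleitman type for the spaces `I3` -/
theorem three (k : ℕ) : ∀ X Y Z : Finset (Fin k → Bool),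
    IsUpperSet (X : Set (Fin k → Bool)) → IsUpperSet (Y : Set (Fin k → Bool)) →
    IsUpperSet (Z : Set (Fin k → Bool)) →
    4 ^ k * Module.finrank ℝ (I3 k X Y Z) ≤ X.card * Y.card * Z.card := by
  induction k with
  | zero =>
    intro X Y Z _ _ _
    rw [pow_zero, one_mul]
    by_cases hX : X = ∅
    · have : I3 0 X Y Z = ⊥ := by
        rw [I3, U, if_pos hX]
        simp
      rw [this, finrank_bot]
      exact Nat.zero_le _
    by_cases hY : Y = ∅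
    · have : I3 0 X Y Z = ⊥ := by
        rw [I3, U, U, if_pos hY]
        simp
      rw [this, finrank_bot]
      exact Nat.zero_le _
    by_cases hZ : Z = ∅
    · have : I3 0 X Y Z = ⊥ := by
        rw [I3, U, U, U, if_pos hZ]
        simp
      rw [this, finrank_bot]
      exact Nat.zero_le _
    have h1 : Module.finrank ℝ (I3 0 X Y Z) ≤ 1 := by
      refine le_trans (Submodule.finrank_le _) ?_
      simp
    have hx : 1 ≤ X.card := Finset.card_pos.2 (Finset.nonempty_iff_ne_empty.2 hX)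
    have hy : 1 ≤ Y.card := Finset.card_pos.2 (Finset.nonempty_iff_ne_empty.2 hY)
    have hz : 1 ≤ Z.card := Finset.card_pos.2 (Finset.nonempty_iff_ne_empty.2 hZ)
    refine le_trans h1 ?_
    have := Nat.mul_le_mul (Nat.mul_le_mul hx hy) hz
    simpa using this
  | succ k ih =>
    intro X Y Z hX hY hZ
    have X0 := sec_upper false X hX
    have X1 := sec_upper true X hX
    have Y0 := sec_upper false Y hY
    have Y1 := sec_upper true Y hY
    have Z0 := sec_upper false Z hZ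
    have Z1 := sec_upper true Z hZ
    have D0 := dim_le (I3 (k + 1) X Y Z) (I3 k (sec false X) (sec true Y) (sec true Z))
      (I3 k (sec true X) (sec false Y) (sec false Z)) (p 0) (p 1) (I3_p0 X Y Z) (k0 X Y Z)
      (fun f _ h0 h1 => p01 f h0 h1)
    have D1 := dim_le (I3 (k + 1) X Y Z) (I3 k (sec true X) (sec false Y) (sec true Z))
      (I3 k (sec false X) (sec true Y) (sec false Z)) (p 1) (p 2) (I3_p1 X Y Z) (k1 X Y Z)
      (fun f _ h0 h1 => p12 f h0 h1)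
    have D2 := dim_le (I3 (k + 1) X Y Z) (I3 k (sec true X) (sec true Y) (sec false Z))
      (I3 k (sec false X) (sec false Y) (sec true Z)) (p 2) (p 0) (I3_p2 X Y Z) (k2 X Y Z)
      (fun f _ h0 h1 => p02 f h1 h0)
    have := numeric (4 ^ k) (Module.finrank ℝ (I3 (k + 1) X Y Z)) _ _ _ _ _ _
      (sec false X).card (sec true X).card (sec false Y).card (sec true Y).card
      (sec false Z).card (sec true Z).card
      (Finset.card_le_card (sec_sub X hX)) (Finset.card_le_card (sec_sub Y hY))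
      (Finset.card_le_card (sec_sub Z hZ)) D0 D1 D2
      (ih _ _ _ X0 Y1 Z1) (ih _ _ _ X1 Y0 Z0) (ih _ _ _ X1 Y0 Z1) (ih _ _ _ X0 Y1 Z0)
      (ih _ _ _ X1 Y1 Z0) (ih _ _ _ X0 Y0 Z1)
    rw [card_sec, card_sec, card_sec] at this
    rw [pow_succ]
    exact this

end Pool.Agent.Lib.RHO5
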