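import Mathlib
import Pool.Agent.Lib.RHO4.A
import Pool.Agent.Lib.RHO5.B

set_option autoImplicit false

namespace Pool.Agent.Lib.RHO5

open Finset

theorem rank_ineq {E J : Type} [AddCommGroup E] [Module ℝ E] [Module.Finite ℝ E] [Fintype J]
    [DecidableEq J] (I : Submodule ℝ E) (v : J → E) (hv : ∀ j, v j ∈ I) (φ : J → (E →ₗ[ℝ] ℝ)) :
    (∑ j, φ j (v j)) ^ 2 ≤ (Module.finrank ℝ I : ℝ) * ∑ i, ∑ j, (φ i (v j)) ^ 2 := by
  let b := Module.finBasis ℝ I
  let P : Matrix J (Fin (Module.finrank ℝ I)) ℝ := fun i t => φ i (b t : E)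
  let Q : Matrix (Fin (Module.finrank ℝ I)) J ℝ := fun t j => b.repr ⟨v j, hv j⟩ t
  have hPQ : ∀ i j, (P * Q) i j = φ i (v j) := by
    intro i j
    have h := b.sum_repr ⟨v j, hv j⟩
    have h2 := congrArg (fun x : I => φ i (x : E)) h
    simp only [Submodule.coe_sum, Submodule.coe_smul, map_sum, map_smul, smul_eq_mul] at h2
    rw [Matrix.mul_apply, ← h2]
    apply Finset.sum_congr rfl
    intro t _
    simp only [P, Q]
    ring
  have h := Pool.Agent.Lib.RHO4.trace_sq_le P Q
  simp only [hPQ, Fintype.card_fin] at h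
  exact h

def vz (a : ZMod 3) (b : Bool) : ℤ :=
  if a = 0 then (if b then 1 else 0) else if a = 1 then (if b then 0 else 1) else 1

def lz (a : ZMod 3) (b : Bool) : ℤ :=
  if a = 0 then (if b then 1 else -1) else if a = 1 then (if b then 0 else 1)
    else (if b then 1 else 0)

def pz (a b : ZMod 3) : ℤ := vz b true * lz a true + vz b false * lz a false

theorem pz_self : ∀ a : ZMod 3, pz a a = 1 := by decide

theorem pz_sq : ∀ a b : ZMod 3, (pz a b) ^ 2 = if (b = a ∨ b = a + 1) then 1 else 0 := by decide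

/-- product tensors -/
def tens {k : ℕ} (w : Fin k → ZMod 3) : V k := fun x => ∏ i, (vz (w i) (x i) : ℝ)

/-- dual functionals -/
def phi {k : ℕ} (w : Fin k → ZMod 3) : V k →ₗ[ℝ] ℝ where
  toFun f := ∑ x : Fin k → Bool, f x * ∏ i, (lz (w i) (x i) : ℝ)
  map_add' f g := by
    rw [← Finset.sum_add_distrib]
    exact Finset.sum_congr rfl (fun x _ => by rw [Pi.add_apply, add_mul])
  map_smul' c f := by
    rw [RingHom.id_apply, smul_eq_mul, Finset.mul_sum]
    exact Finset.sum_congr rfl (fun x _ => by rw [Pi.smul_apply, smul_eq_mul, mul_assoc])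

theorem phi_tens {k : ℕ} (w w' : Fin k → ZMod 3) :
    phi w (tens w') = ∏ i, (pz (w i) (w' i) : ℝ) := by
  have h : ∀ i, (pz (w i) (w' i) : ℝ) = ∑ b : Bool, (vz (w' i) b : ℝ) * (lz (w i) b : ℝ) := by
    intro i
    rw [Fintype.sum_bool, pz]
    push_cast
    ring
  simp only [h]
  rw [Finset.prod_univ_sum, Fintype.piFinset_univ]
  simp only [phi, tens, LinearMap.coe_mk, AddHom.coe_mk]
  apply Finset.sum_congr rfl
  intro x _
  rw [← Finset.prod_mul_distrib]

theorem phi_tens_sq {k : ℕ} (w w' : Fin k → ZMod 3) :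
    (phi w (tens w')) ^ 2 = if (∀ i, w' i = w i ∨ w' i = w i + 1) then (1 : ℝ) else 0 := by
  rw [phi_tens, ← Finset.prod_pow]
  have h : ∀ i, (pz (w i) (w' i) : ℝ) ^ 2 = if (w' i = w i ∨ w' i = w i + 1) then 1 else 0 := by
    intro i
    have := pz_sq (w i) (w' i)
    have h2 : ((pz (w i) (w' i) ^ 2 : ℤ) : ℝ) =
        ((if (w' i = w i ∨ w' i = w i + 1) then (1 : ℤ) else 0 : ℤ) : ℝ) := by rw [this]
    push_cast at h2
    exact h2
  simp only [h]
  by_cases hall : ∀ i, w' i = w i ∨ w' i = w i + 1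
  · rw [if_pos hall]
    apply Finset.prod_eq_one
    intro i _
    rw [if_pos (hall i)]
  · rw [if_neg hall]
    push Not at hall
    obtain ⟨i, hi⟩ := hall
    apply Finset.prod_eq_zero (Finset.mem_univ i)
    rw [if_neg]
    rintro (h1 | h1)
    · exact hi.1 h1
    · exact hi.2 h1

theorem phi_tens_self {k : ℕ} (w : Fin k → ZMod 3) : phi w (tens w) = 1 := by
  rw [phi_tens]
  apply Finset.prod_eq_one
  intro i _
  rw [pz_self]
  norm_num

/-- the places with the letter `L` -/
def ls {k : ℕ} (L : ZMod 3) (w : Fin k → ZMod 3) : Fin k → Bool := fun i => decide (w i = L)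

theorem tens_cons {k : ℕ} (w : Fin (k + 1) → ZMod 3) (b : Bool) (x : Fin k → Bool) :
    tens w (Fin.cons b x) = (vz (w 0) b : ℝ) * tens (Fin.tail w) x := by
  simp only [tens, Fin.prod_univ_succ, Fin.cons_zero, Fin.cons_succ, Fin.tail]

def cz (L a : ZMod 3) : ℤ :=
  if L = 0 then vz a false else if L = 1 then - vz a true else vz a true - vz a false

theorem cz_self : ∀ L : ZMod 3, cz L L = 0 := by decide

theorem p_tens {k : ℕ} (w : Fin (k + 1) → ZMod 3) (L : ZMod 3) :
    p L (tens w) = (cz L (w 0) : ℝ) • tens (Fin.tail w) := by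
  funext x
  rw [Pi.smul_apply, smul_eq_mul]
  unfold p cz
  split_ifs
  · simp only [restr, LinearMap.coe_mk, AddHom.coe_mk]
    rw [tens_cons]
  · simp only [restr, LinearMap.neg_apply, LinearMap.coe_mk, AddHom.coe_mk, Pi.neg_apply]
    rw [tens_cons]
    push_cast
    ring
  · simp only [restr, LinearMap.sub_apply, LinearMap.coe_mk, AddHom.coe_mk, Pi.sub_apply]
    rw [tens_cons, tens_cons]
    push_cast
    ring

theorem tens_mem (L : ZMod 3) : ∀ (k : ℕ) (w : Fin k → ZMod 3) (X : Finset (Fin k → Bool)),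
    IsUpperSet (X : Set (Fin k → Bool)) → ls L w ∈ X → tens w ∈ U k L X := by
  intro k
  induction k with
  | zero =>
    intro w X _ hw
    rw [U, if_neg (Finset.nonempty_iff_ne_empty.1 ⟨_, hw⟩)]
    exact Submodule.mem_top
  | succ k ih =>
    intro w X hX hw
    rw [mem_U_succ]
    have hcons : ls L w = Fin.cons (decide (w 0 = L)) (ls L (Fin.tail w)) := by
      funext i
      refine Fin.cases ?_ ?_ i
      · simp [ls]
      · intro j
        simp [ls, Fin.tail]
    have htrue : tens (Fin.tail w) ∈ U k L (sec true X) := by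
      apply ih _ _ (sec_upper true X hX)
      by_cases h0 : w 0 = L
      · rw [mem_sec]
        rw [hcons] at hw
        simpa [h0] using hw
      · apply sec_sub X hX
        rw [mem_sec]
        rw [hcons] at hw
        simpa [h0] using hw
    refine ⟨?_, ?_⟩
    · rw [p_tens]
      by_cases h0 : w 0 = L
      · rw [h0, cz_self]
        simp
      · apply Submodule.smul_mem
        apply ih _ _ (sec_upper false X hX)
        rw [mem_sec]
        rw [hcons] at hw
        simpa [h0] using hw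
    · intro M
      rw [p_tens]
      exact Submodule.smul_mem _ _ htrue

/-- pairs of words of `J` such that the second is obtained from the first by raising letters -/
def near {k : ℕ} (J : Finset (Fin k → ZMod 3)) : Finset ((Fin k → ZMod 3) × (Fin k → ZMod 3)) :=
  (J ×ˢ J).filter (fun q => ∀ i, q.2 i = q.1 i ∨ q.2 i = q.1 i + 1)

theorem code_dim {k : ℕ} (J : Finset (Fin k → ZMod 3)) (X Y Z : Finset (Fin k → Bool))
    (hX : IsUpperSet (X : Set (Fin k → Bool))) (hY : IsUpperSet (Y : Set (Fin k → Bool)))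
    (hZ : IsUpperSet (Z : Set (Fin k → Bool)))
    (h : ∀ w ∈ J, ls 0 w ∈ X ∧ ls 1 w ∈ Y ∧ ls 2 w ∈ Z) :
    J.card ^ 2 ≤ Module.finrank ℝ (I3 k X Y Z) * (near J).card := by
  classical
  have hmem : ∀ j : J, tens (j : Fin k → ZMod 3) ∈ I3 k X Y Z := by
    intro j
    obtain ⟨h1, h2, h3⟩ := h j.1 j.2
    rw [mem_I3]
    exact ⟨tens_mem 0 k j.1 X hX h1, tens_mem 1 k j.1 Y hY h2, tens_mem 2 k j.1 Z hZ h3⟩
  have hr := rank_ineq (I3 k X Y Z) (fun j : J => tens (j : Fin k → ZMod 3)) hmem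
    (fun j : J => phi (j : Fin k → ZMod 3))
  simp only [phi_tens_self, phi_tens_sq] at hr
  have e1 : (∑ j : J, (1 : ℝ)) = (J.card : ℝ) := by simp
  have e2 : (∑ i : J, ∑ j : J, if (∀ t, (j : Fin k → ZMod 3) t = (i : Fin k → ZMod 3) t ∨
      (j : Fin k → ZMod 3) t = (i : Fin k → ZMod 3) t + 1) then (1 : ℝ) else 0) =
      ((near J).card : ℝ) := by
    rw [near, Finset.card_filter, Finset.sum_product]
    push_cast
    rw [← Finset.sum_coe_sort J]
    apply Finset.sum_congr rfl
    intro i _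
    rw [← Finset.sum_coe_sort J]
  rw [e1, e2] at hr
  exact_mod_cast hr

/-- the three-family inequality for words -/
theorem code_bool {k : ℕ} (J : Finset (Fin k → ZMod 3)) (X Y Z : Finset (Fin k → Bool))
    (hX : IsUpperSet (X : Set (Fin k → Bool))) (hY : IsUpperSet (Y : Set (Fin k → Bool)))
    (hZ : IsUpperSet (Z : Set (Fin k → Bool)))
    (h : ∀ w ∈ J, ls 0 w ∈ X ∧ ls 1 w ∈ Y ∧ ls 2 w ∈ Z) :
    4 ^ k * J.card ^ 2 ≤ X.card * Y.card * Z.card * (near J).card := by
  calc 4 ^ k * J.card ^ 2 ≤ 4 ^ k * (Module.finrank ℝ (I3 k X Y Z) * (near J).card) :=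
        Nat.mul_le_mul_left _ (code_dim J X Y Z hX hY hZ h)
    _ = (4 ^ k * Module.finrank ℝ (I3 k X Y Z)) * (near J).card := by ring
    _ ≤ _ := Nat.mul_le_mul_right _ (three k X Y Z hX hY hZ)

end Pool.Agent.Lib.RHO5
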