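import Mathlib
import Pool.Agent.Lib.RHO4.C
import Pool.Agent.Lib.RHO5.C

set_option autoImplicit false

namespace Pool.Agent.Lib.RHO5

open Finset

theorem mem_prs {ι G : Type} [Fintype ι] [DecidableEq ι] [DecidableEq G] [AddCommGroup G]
    (s : ι → G) (q : (ι → ZMod 3) × (ι → ZMod 3)) (h1 : RHO4.cls s q.1 = RHO4.cls s q.2)
    (h2 : ∀ i, q.2 i = q.1 i ∨ q.2 i = q.1 i + 1) : q ∈ RHO4.prs s := by
  unfold RHO4.prs
  rw [mem_filter]
  exact ⟨mem_univ _, h1, h2⟩

/-- the part of the index set with label `j` -/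
def part {k : ℕ} (w : Fin k → ZMod 3) (j : ZMod 3) : Finset (Fin k) :=
  univ.filter (fun i => w i = j)

/-- indicator functions -/
def ind {k : ℕ} (W : Finset (Fin k)) : Fin k → Bool := fun i => decide (i ∈ W)

theorem ind_inj {k : ℕ} : Function.Injective (ind (k := k)) := by
  intro W W' h
  ext i
  have := congrFun h i
  simpa [ind] using this

theorem ind_surj {k : ℕ} (x : Fin k → Bool) : ind (univ.filter (fun i => x i = true)) = x := by
  funext i
  simp [ind]

theorem ls_eq {k : ℕ} (w : Fin k → ZMod 3) (j : ZMod 3) : ls j w = ind (part w j) := by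
  funext i
  simp [ls, ind, part]

theorem upper_image {k : ℕ} (X : Finset (Finset (Fin k)))
    (h : IsUpperSet (X : Set (Finset (Fin k)))) :
    IsUpperSet ((X.image ind : Finset (Fin k → Bool)) : Set (Fin k → Bool)) := by
  intro x y hxy hx
  rw [mem_coe, mem_image] at hx ⊢
  obtain ⟨W, hW, rfl⟩ := hx
  refine ⟨univ.filter (fun i => y i = true), h ?_ hW, ind_surj y⟩
  intro i hi
  rw [mem_filter]
  refine ⟨mem_univ i, ?_⟩
  have := hxy i
  simp only [ind, hi, decide_true] at this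
  exact Bool.eq_true_of_true_le this

/-- the three-family inequality for words, families of sets -/
theorem code_set {k : ℕ} (J : Finset (Fin k → ZMod 3)) (X Y Z : Finset (Finset (Fin k)))
    (hX : IsUpperSet (X : Set (Finset (Fin k)))) (hY : IsUpperSet (Y : Set (Finset (Fin k))))
    (hZ : IsUpperSet (Z : Set (Finset (Fin k))))
    (h : ∀ w ∈ J, part w 0 ∈ X ∧ part w 1 ∈ Y ∧ part w 2 ∈ Z) :
    4 ^ k * J.card ^ 2 ≤ X.card * Y.card * Z.card * (near J).card := by
  classical
  have := code_bool J (X.image ind) (Y.image ind) (Z.image ind) (upper_image X hX)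
    (upper_image Y hY) (upper_image Z hZ) (by
      intro w hw
      obtain ⟨h1, h2, h3⟩ := h w hw
      rw [ls_eq, ls_eq, ls_eq]
      exact ⟨mem_image_of_mem _ h1, mem_image_of_mem _ h2, mem_image_of_mem _ h3⟩)
  rw [card_image_of_injective _ ind_inj, card_image_of_injective _ ind_inj,
    card_image_of_injective _ ind_inj] at this
  exact this

section

variable {k : ℕ} {G : Type} [DecidableEq G] [AddCommGroup G]

/-- the number of parts of the sequence which have `g` as a subset sum -/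
def deg (s : Fin k → G) (g : G) : ℕ :=
  (univ.filter (fun W : Finset (Fin k) => g ∈ RHO4.sums s W)).card

/-- the ordered partitions of the index set into three parts with sums `a, b, c` -/
def words (s : Fin k → G) (a b c : G) : Finset (Fin k → ZMod 3) :=
  univ.filter (fun w => ∑ i ∈ part w 0, s i = a ∧ ∑ i ∈ part w 1, s i = b ∧
    ∑ i ∈ part w 2, s i = c)

theorem deg_upper (s : Fin k → G) (g : G) :
    IsUpperSet ((univ.filter (fun W : Finset (Fin k) => g ∈ RHO4.sums s W) :
      Finset (Finset (Fin k))) : Set (Finset (Fin k))) := by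
  intro W W' hWW hW
  rw [mem_coe, mem_filter] at hW ⊢
  refine ⟨mem_univ _, ?_⟩
  have h2 := hW.2
  unfold RHO4.sums at h2 ⊢
  exact Finset.image_subset_image (Finset.powerset_mono.2 hWW) h2

theorem mem_deg (s : Fin k → G) (w : Fin k → ZMod 3) (j : ZMod 3) (g : G)
    (h : ∑ i ∈ part w j, s i = g) :
    part w j ∈ univ.filter (fun W : Finset (Fin k) => g ∈ RHO4.sums s W) := by
  rw [mem_filter]
  refine ⟨mem_univ _, ?_⟩
  unfold RHO4.sums
  rw [mem_image]
  exact ⟨part w j, Finset.mem_powerset_self _, h⟩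

theorem words_le (s : Fin k → G) (a b c : G) :
    4 ^ k * (words s a b c).card ^ 2 ≤ deg s a * deg s b * deg s c *
      (near (words s a b c)).card := by
  refine code_set (words s a b c) _ _ _ (deg_upper s a) (deg_upper s b) (deg_upper s c) ?_
  intro w hw
  unfold words at hw
  rw [mem_filter] at hw
  exact ⟨mem_deg s w 0 a hw.2.1, mem_deg s w 1 b hw.2.2.1, mem_deg s w 2 c hw.2.2.2⟩

theorem sum_parts (s : Fin k → G) (w : Fin k → ZMod 3) :
    ∑ i ∈ part w 0, s i + ∑ i ∈ part w 1, s i + ∑ i ∈ part w 2, s i = ∑ i, s i := by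
  unfold part
  simp only [Finset.sum_filter]
  rw [← Finset.sum_add_distrib, ← Finset.sum_add_distrib]
  apply Finset.sum_congr rfl
  intro i _
  have key : ∀ x : ZMod 3, (x = 0 ∧ x ≠ 1 ∧ x ≠ 2) ∨ (x ≠ 0 ∧ x = 1 ∧ x ≠ 2) ∨
      (x ≠ 0 ∧ x ≠ 1 ∧ x = 2) := by decide
  rcases key (w i) with ⟨h1, h2, h3⟩ | ⟨h1, h2, h3⟩ | ⟨h1, h2, h3⟩
  · rw [if_pos h1, if_neg h2, if_neg h3, add_zero, add_zero]
  · rw [if_neg h1, if_pos h2, if_neg h3, zero_add, add_zero]
  · rw [if_neg h1, if_neg h2, if_pos h3, zero_add, zero_add]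

theorem part_mem (s : Fin k → G) (w : Fin k → ZMod 3) (j : ZMod 3) :
    ∑ i ∈ part w j, s i ∈ RHO4.sums s univ := by
  unfold RHO4.sums
  rw [mem_image]
  exact ⟨part w j, by rw [Finset.mem_powerset]; exact subset_univ _, rfl⟩

/-- all words, by classes -/
theorem sum_words (s : Fin k → G) :
    ∑ q ∈ RHO4.sums s univ ×ˢ RHO4.sums s univ,
      (words s q.1 q.2 (∑ i, s i - q.1 - q.2)).card = 3 ^ k := by
  have hmap : ∀ w ∈ (univ : Finset (Fin k → ZMod 3)),
      (∑ i ∈ part w 0, s i, ∑ i ∈ part w 1, s i) ∈ RHO4.sums s univ ×ˢ RHO4.sums s univ := by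
    intro w _
    rw [mem_product]
    exact ⟨part_mem s w 0, part_mem s w 1⟩
  have h := Finset.card_eq_sum_card_fiberwise hmap
  have h0 : (univ : Finset (Fin k → ZMod 3)).card = 3 ^ k := by
    rw [Finset.card_univ, Fintype.card_fun, ZMod.card, Fintype.card_fin]
  rw [← h0, h]
  apply Finset.sum_congr rfl
  intro q _
  congr 1
  ext w
  unfold words
  rw [mem_filter, mem_filter]
  constructor
  · rintro ⟨_, h1, h2, _⟩
    exact ⟨mem_univ _, Prod.ext h1 h2⟩
  · rintro ⟨_, h1⟩
    have e1 : ∑ i ∈ part w 0, s i = q.1 := congrArg Prod.fst h1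
    have e2 : ∑ i ∈ part w 1, s i = q.2 := congrArg Prod.snd h1
    refine ⟨mem_univ _, e1, e2, ?_⟩
    have := sum_parts s w
    rw [← this, e1, e2]
    abel

theorem cls_eq (s : Fin k → G) (w w' : Fin k → ZMod 3) (a b c : G) (hw : w ∈ words s a b c)
    (hw' : w' ∈ words s a b c) : RHO4.cls s w = RHO4.cls s w' := by
  unfold words at hw hw'
  rw [mem_filter] at hw hw'
  unfold RHO4.cls
  unfold part at hw hw'
  rw [hw.2.2.1, hw.2.2.2, hw'.2.2.1, hw'.2.2.2]

/-- all near pairs, by classes -/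
theorem sum_near (s : Fin k → G) :
    ∑ q ∈ RHO4.sums s univ ×ˢ RHO4.sums s univ,
      (near (words s q.1 q.2 (∑ i, s i - q.1 - q.2))).card ≤ (RHO4.prs s).card := by
  classical
  rw [← Finset.card_sigma]
  refine Finset.card_le_card_of_injOn (fun x => x.2) ?_ ?_
  · intro x hx
    rw [mem_coe, mem_sigma] at hx
    have h2 := hx.2
    unfold near at h2
    rw [mem_filter, mem_product] at h2
    rw [mem_coe]
    exact mem_prs s _ (cls_eq s _ _ _ _ _ h2.1.1 h2.1.2) h2.2
  · intro x hx y hy hxy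
    rw [mem_coe, mem_sigma] at hx hy
    have h2 := hx.2
    have h3 := hy.2
    unfold near at h2 h3
    rw [mem_filter, mem_product] at h2 h3
    have h4 := h2.1.1
    have h5 := h3.1.1
    have hxy' : x.2 = y.2 := hxy
    rw [hxy'] at h4
    unfold words at h4 h5
    rw [mem_filter] at h4 h5
    obtain ⟨x1, x2⟩ := x
    obtain ⟨y1, y2⟩ := y
    simp only at hxy' h4 h5
    subst hxy'
    have e : x1 = y1 := Prod.ext (h4.2.1.symm.trans h5.2.1) (h4.2.2.1.symm.trans h5.2.2.1)
    subst e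
    rfl

/-- the robust inequality -/
theorem robust (s : Fin k → G) :
    36 ^ k ≤ (∑ q ∈ RHO4.sums s univ ×ˢ RHO4.sums s univ,
      deg s q.1 * deg s q.2 * deg s (∑ i, s i - q.1 - q.2)) * (RHO4.prs s).card := by
  have hcs := Finset.sum_sq_le_sum_mul_sum_of_sq_le_mul (R := ℕ)
    (RHO4.sums s univ ×ˢ RHO4.sums s univ)
    (r := fun q => 2 ^ k * (words s q.1 q.2 (∑ i, s i - q.1 - q.2)).card)
    (f := fun q => deg s q.1 * deg s q.2 * deg s (∑ i, s i - q.1 - q.2))
    (g := fun q => (near (words s q.1 q.2 (∑ i, s i - q.1 - q.2))).card)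
    (fun _ _ => Nat.zero_le _) (fun _ _ => Nat.zero_le _) (by
      intro q _
      have h := words_le s q.1 q.2 (∑ i, s i - q.1 - q.2)
      have e : (2 : ℕ) ^ k * 2 ^ k = 4 ^ k := by
        rw [← mul_pow]
        norm_num
      calc (2 ^ k * (words s q.1 q.2 (∑ i, s i - q.1 - q.2)).card) ^ 2 =
          (2 ^ k * 2 ^ k) * (words s q.1 q.2 (∑ i, s i - q.1 - q.2)).card ^ 2 := by ring
        _ = 4 ^ k * (words s q.1 q.2 (∑ i, s i - q.1 - q.2)).card ^ 2 := by rw [e]
        _ ≤ _ := h)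
  rw [← Finset.mul_sum, sum_words] at hcs
  have e : (2 ^ k * 3 ^ k) ^ 2 = 36 ^ k := by
    rw [← mul_pow, ← pow_mul, mul_comm k 2, pow_mul]
    norm_num
  rw [e] at hcs
  exact le_trans hcs (Nat.mul_le_mul_left _ (sum_near s))

end

end Pool.Agent.Lib.RHO5
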