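import Mathlib
import Pool.Agent.Lib.RHO5.D

set_option autoImplicit false

namespace Pool.Agent.Lib.RHO5

open Finset

/-- change `U` at the places with role `j` -/
def flp {k : ℕ} (T : Fin k → ZMod 3) (j : ZMod 3) (U : Fin k → Bool) : Fin k → Bool :=
  fun i => if T i = j then !(U i) else U i

def cntSet {k : ℕ} (T : Fin k → ZMod 3) (X Y Z : Finset (Fin k → Bool)) :
    Finset (Fin k → Bool) :=
  univ.filter (fun U => flp T 0 U ∈ X ∧ flp T 1 U ∈ Y ∧ flp T 2 U ∈ Z)

theorem flp_cons {k : ℕ} (T : Fin (k + 1) → ZMod 3) (j : ZMod 3) (b : Bool) (U : Fin k → Bool) :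
    flp T j (Fin.cons b U) =
      Fin.cons (if T 0 = j then !b else b) (flp (Fin.tail T) j U) := by
  funext i
  refine Fin.cases ?_ ?_ i
  · simp [flp]
  · intro i
    simp [flp, Fin.tail]

theorem sec_cntSet {k : ℕ} (T : Fin (k + 1) → ZMod 3) (X Y Z : Finset (Fin (k + 1) → Bool))
    (b : Bool) :
    sec b (cntSet T X Y Z) = cntSet (Fin.tail T) (sec (if T 0 = 0 then !b else b) X)
      (sec (if T 0 = 1 then !b else b) Y) (sec (if T 0 = 2 then !b else b) Z) := by
  ext U
  rw [mem_sec]
  unfold cntSet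
  rw [mem_filter, mem_filter, flp_cons, flp_cons, flp_cons, mem_sec, mem_sec, mem_sec]
  simp

theorem dim_cnt (k : ℕ) : ∀ (T : Fin k → ZMod 3) (X Y Z : Finset (Fin k → Bool)),
    Module.finrank ℝ (I3 k X Y Z) ≤ (cntSet T X Y Z).card := by
  induction k with
  | zero =>
    intro T X Y Z
    by_cases hX : X = ∅
    · have : I3 0 X Y Z = ⊥ := by
        rw [I3, U, if_pos hX]
        simp
      rw [this, finrank_bot]
      exact Nat.zero_le _
    by_cases hY : Y = ∅
    · have : I3 0 X Y Z = ⊥ := by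
        rw [I3, U, U, if_pos hY]
        simp
      rw [this, finrank_bot]
      exact Nat.zero_le _
    by_cases hZ : Z = ∅
    · have : I3 0 X Y Z = ⊥ := by
        rw [I3, U, U, U, if_pos hZ]
        simp
      rw [this, finrank_bot]
      exact Nat.zero_le _
    have h1 : Module.finrank ℝ (I3 0 X Y Z) ≤ 1 := by
      refine le_trans (Submodule.finrank_le _) ?_
      simp
    refine le_trans h1 ?_
    rw [Nat.succ_le_iff, Finset.card_pos]
    obtain ⟨x, hx⟩ := Finset.nonempty_iff_ne_empty.2 hX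
    obtain ⟨y, hy⟩ := Finset.nonempty_iff_ne_empty.2 hY
    obtain ⟨z, hz⟩ := Finset.nonempty_iff_ne_empty.2 hZ
    refine ⟨x, ?_⟩
    unfold cntSet
    rw [mem_filter]
    refine ⟨mem_univ _, ?_, ?_, ?_⟩
    · rw [Subsingleton.elim (flp T 0 x) x]
      exact hx
    · rw [Subsingleton.elim (flp T 1 x) y]
      exact hy
    · rw [Subsingleton.elim (flp T 2 x) z]
      exact hz
  | succ k ih =>
    intro T X Y Z
    have hs := card_sec (cntSet T X Y Z)
    rw [sec_cntSet, sec_cntSet] at hs
    have D0 := dim_le (I3 (k + 1) X Y Z) (I3 k (sec false X) (sec true Y) (sec true Z))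
      (I3 k (sec true X) (sec false Y) (sec false Z)) (p 0) (p 1) (I3_p0 X Y Z) (k0 X Y Z)
      (fun f _ h0 h1 => p01 f h0 h1)
    have D1 := dim_le (I3 (k + 1) X Y Z) (I3 k (sec true X) (sec false Y) (sec true Z))
      (I3 k (sec false X) (sec true Y) (sec false Z)) (p 1) (p 2) (I3_p1 X Y Z) (k1 X Y Z)
      (fun f _ h0 h1 => p12 f h0 h1)
    have D2 := dim_le (I3 (k + 1) X Y Z) (I3 k (sec true X) (sec true Y) (sec false Z))
      (I3 k (sec false X) (sec false Y) (sec true Z)) (p 2) (p 0) (I3_p2 X Y Z) (k2 X Y Z)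
      (fun f _ h0 h1 => p02 f h1 h0)
    rw [← hs]
    have key : ∀ x : ZMod 3, (x = 0 ∧ x ≠ 1 ∧ x ≠ 2) ∨ (x ≠ 0 ∧ x = 1 ∧ x ≠ 2) ∨
        (x ≠ 0 ∧ x ≠ 1 ∧ x = 2) := by decide
    rcases key (T 0) with ⟨h1, h2, h3⟩ | ⟨h1, h2, h3⟩ | ⟨h1, h2, h3⟩
    · rw [if_pos h1, if_neg h2, if_neg h3, if_pos h1, if_neg h2, if_neg h3]
      refine le_trans D0 ?_
      rw [add_comm]
      exact Nat.add_le_add (ih _ _ _ _) (ih _ _ _ _)
    · rw [if_neg h1, if_pos h2, if_neg h3, if_neg h1, if_pos h2, if_neg h3]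
      refine le_trans D1 ?_
      rw [add_comm]
      exact Nat.add_le_add (ih _ _ _ _) (ih _ _ _ _)
    · rw [if_neg h1, if_neg h2, if_pos h3, if_neg h1, if_neg h2, if_pos h3]
      refine le_trans D2 ?_
      rw [add_comm]
      exact Nat.add_le_add (ih _ _ _ _) (ih _ _ _ _)

/-- parts `U` whose changes on the three parts of `T` lie in the three families -/
def changes {k : ℕ} (T : Fin k → ZMod 3) (X Y Z : Finset (Finset (Fin k))) :
    Finset (Finset (Fin k)) :=
  univ.filter (fun U => symmDiff U (part T 0) ∈ X ∧ symmDiff U (part T 1) ∈ Y ∧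
    symmDiff U (part T 2) ∈ Z)

theorem flp_ind {k : ℕ} (T : Fin k → ZMod 3) (j : ZMod 3) (U : Finset (Fin k)) :
    flp T j (ind U) = ind (symmDiff U (part T j)) := by
  funext i
  simp only [flp, ind, part, Finset.mem_symmDiff, mem_filter, mem_univ, true_and]
  by_cases h1 : i ∈ U
  · by_cases h2 : T i = j
    · simp [h1, h2]
    · simp [h1, h2]
  · by_cases h2 : T i = j
    · simp [h1, h2]
    · simp [h1, h2]

theorem card_changes {k : ℕ} (T : Fin k → ZMod 3) (X Y Z : Finset (Finset (Fin k))) :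
    (cntSet T (X.image ind) (Y.image ind) (Z.image ind)).card = (changes T X Y Z).card := by
  classical
  rw [← Finset.card_image_of_injective (changes T X Y Z) ind_inj]
  congr 1
  ext U
  have hU := ind_surj U
  rw [← hU]
  set W : Finset (Fin k) := univ.filter (fun i => U i = true) with hW
  unfold cntSet changes
  rw [mem_filter, flp_ind, flp_ind, flp_ind, ind_inj.mem_finset_image, ind_inj.mem_finset_image,
    ind_inj.mem_finset_image, ind_inj.mem_finset_image, mem_filter]
  simp only [mem_univ, true_and]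

/-- the three-family inequality with roles -/
theorem code_roles {k : ℕ} (J : Finset (Fin k → ZMod 3)) (X Y Z : Finset (Finset (Fin k)))
    (hX : IsUpperSet (X : Set (Finset (Fin k)))) (hY : IsUpperSet (Y : Set (Finset (Fin k))))
    (hZ : IsUpperSet (Z : Set (Finset (Fin k))))
    (h : ∀ w ∈ J, part w 0 ∈ X ∧ part w 1 ∈ Y ∧ part w 2 ∈ Z) (T : Fin k → ZMod 3) :
    J.card ^ 2 ≤ (changes T X Y Z).card * (near J).card := by
  classical
  have := code_dim J (X.image ind) (Y.image ind) (Z.image ind) (upper_image X hX)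
    (upper_image Y hY) (upper_image Z hZ) (by
      intro w hw
      obtain ⟨h1, h2, h3⟩ := h w hw
      rw [ls_eq, ls_eq, ls_eq]
      exact ⟨mem_image_of_mem _ h1, mem_image_of_mem _ h2, mem_image_of_mem _ h3⟩)
  refine le_trans this (Nat.mul_le_mul_right _ ?_)
  rw [← card_changes]
  exact dim_cnt k T _ _ _

section

variable {k : ℕ} {G : Type} [DecidableEq G] [AddCommGroup G]

/-- parts `U` such that `a`, `b`, `c` are subset sums of the three changed parts -/
def cnt (s : Fin k → G) (T : Fin k → ZMod 3) (a b c : G) : ℕ :=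
  (univ.filter (fun U : Finset (Fin k) => a ∈ RHO4.sums s (symmDiff U (part T 0)) ∧
    b ∈ RHO4.sums s (symmDiff U (part T 1)) ∧ c ∈ RHO4.sums s (symmDiff U (part T 2)))).card

theorem words_roles (s : Fin k → G) (T : Fin k → ZMod 3) (a b c : G) :
    (words s a b c).card ^ 2 ≤ cnt s T a b c * (near (words s a b c)).card := by
  have h := code_roles (words s a b c)
    (univ.filter (fun W : Finset (Fin k) => a ∈ RHO4.sums s W))
    (univ.filter (fun W : Finset (Fin k) => b ∈ RHO4.sums s W))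
    (univ.filter (fun W : Finset (Fin k) => c ∈ RHO4.sums s W))
    (deg_upper s a) (deg_upper s b) (deg_upper s c) (by
      intro w hw
      unfold words at hw
      rw [mem_filter] at hw
      exact ⟨mem_deg s w 0 a hw.2.1, mem_deg s w 1 b hw.2.2.1, mem_deg s w 2 c hw.2.2.2⟩) T
  have e : changes T (univ.filter (fun W : Finset (Fin k) => a ∈ RHO4.sums s W))
      (univ.filter (fun W : Finset (Fin k) => b ∈ RHO4.sums s W))
      (univ.filter (fun W : Finset (Fin k) => c ∈ RHO4.sums s W)) =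
      univ.filter (fun U : Finset (Fin k) => a ∈ RHO4.sums s (symmDiff U (part T 0)) ∧
    b ∈ RHO4.sums s (symmDiff U (part T 1)) ∧ c ∈ RHO4.sums s (symmDiff U (part T 2))) := by
    unfold changes
    ext U
    simp only [mem_filter, mem_univ, true_and]
  rw [e] at h
  exact h

/-- the robust inequality with roles -/
theorem robust_roles (s : Fin k → G) (T : Fin k → ZMod 3) :
    9 ^ k ≤ (∑ q ∈ RHO4.sums s univ ×ˢ RHO4.sums s univ,
      cnt s T q.1 q.2 (∑ i, s i - q.1 - q.2)) * (RHO4.prs s).card := by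
  have hcs := Finset.sum_sq_le_sum_mul_sum_of_sq_le_mul (R := ℕ)
    (RHO4.sums s univ ×ˢ RHO4.sums s univ)
    (r := fun q => (words s q.1 q.2 (∑ i, s i - q.1 - q.2)).card)
    (f := fun q => cnt s T q.1 q.2 (∑ i, s i - q.1 - q.2))
    (g := fun q => (near (words s q.1 q.2 (∑ i, s i - q.1 - q.2))).card)
    (fun _ _ => Nat.zero_le _) (fun _ _ => Nat.zero_le _)
    (fun q _ => words_roles s T q.1 q.2 (∑ i, s i - q.1 - q.2))
  rw [sum_words] at hcs
  have e : (3 ^ k) ^ 2 = 9 ^ k := by
    rw [← pow_mul, mul_comm k 2, pow_mul]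
    norm_num
  rw [e] at hcs
  exact le_trans hcs (Nat.mul_le_mul_left _ (sum_near s))

end

end Pool.Agent.Lib.RHO5
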